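import Mathlib

/-!
# The poly density threshold of polyamorous scheduling is below 5/6

We give an instance of polyamorous scheduling with `6` people and `7` relations whose poly density is
exactly `4/5 < 5/6` and which has no feasible schedule.

The relations and their frequencies are
`01 ↦ 10`, `04 ↦ 2`, `05 ↦ 5`, `13 ↦ 2`, `15 ↦ 5`, `23 ↦ 4`, `24 ↦ 4`.
Suppose `01` is served on day `t`.  Then `04` and `13` are served on the days `t - 1` and `t + 1`, so
`23` and `24` are not, and `23` and `24` are served on the days `t` and `t ± 2`; say `23` on day `t`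
and `24` on the days `t ± 2` (the instance is symmetric).  Then `04` is served on the days `t ± 1` and
`t ± 3`, so `05` has to be served on the days `t ± 2`, and there is no place for `15` on the five days
from `t - 2` to `t + 2`.
-/

set_option autoImplicit false

namespace Pool.Agent.Results.MP_90a930_lc.FourFifths

open Finset

section Definitions

variable {V : Type} [Fintype V] [DecidableEq V]

/-- `M` is a matching of the graph `G`: a set of edges of `G`, no two of which share a vertex. -/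
def IsMatching (G : SimpleGraph V) (M : Finset (Sym2 V)) : Prop :=
  (∀ e ∈ M, e ∈ G.edgeSet) ∧ ∀ e ∈ M, ∀ e' ∈ M, ∀ v : V, v ∈ e → v ∈ e' → e = e'

/-- `M` is an inclusion-maximal matching of `G`. -/
def IsMaximalMatching (G : SimpleGraph V) (M : Finset (Sym2 V)) : Prop :=
  IsMatching G M ∧ ∀ M' : Finset (Sym2 V), IsMatching G M' → M ⊆ M' → M' = M

/-- `S` is a feasible schedule for the frequencies `f`: `S t` is a matching for every day `t`, and
every edge `e` is served at least once in each window of `f e` consecutive days. -/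
def Feasible (G : SimpleGraph V) (f : Sym2 V → ℕ) (S : ℕ → Finset (Sym2 V)) : Prop :=
  (∀ t, IsMatching G (S t)) ∧ ∀ e ∈ G.edgeSet, ∀ t : ℕ, ∃ s, t ≤ s ∧ s < t + f e ∧ e ∈ S s

/-- The instance `(V, G, f)` is schedulable. -/
def Schedulable (G : SimpleGraph V) (f : Sym2 V → ℕ) : Prop := ∃ S, Feasible G f S

/-- `z` is a weighting: nonnegative weights (at most `1`) of the edges of `G` whose sum is `1`. -/
def IsWeighting (G : SimpleGraph V) [DecidableRel G.Adj] (z : Sym2 V → ℝ) : Prop :=
  (∀ e ∈ G.edgeSet, 0 ≤ z e ∧ z e ≤ 1) ∧ ∑ e ∈ G.edgeFinset, z e = 1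

/-- The value `1 / max_M ∑_{e ∈ M} z_e f_e` of a weighting `z`; the maximum is over all
inclusion-maximal matchings `M`. -/
noncomputable def value (G : SimpleGraph V) (f : Sym2 V → ℕ) (z : Sym2 V → ℝ) : ℝ :=
  1 / sSup {x : ℝ | ∃ M, IsMaximalMatching G M ∧ x = ∑ e ∈ M, z e * f e}

/-- The poly density: the supremum (in the theorem below it is shown to be a maximum) of the values of
all weightings. -/
noncomputable def polyDensity (G : SimpleGraph V) [DecidableRel G.Adj] (f : Sym2 V → ℕ) : ℝ :=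
  sSup {d : ℝ | ∃ z, IsWeighting G z ∧ d = value G f z}

end Definitions

/-! ### The instance -/

/-- the list of the edges -/
def edgeList : List (Fin 6 × Fin 6) := [(0, 1), (0, 4), (0, 5), (1, 3), (1, 5), (2, 3), (2, 4)]

/-- the graph -/
def G : SimpleGraph (Fin 6) where
  Adj x y := (x, y) ∈ edgeList ∨ (y, x) ∈ edgeList
  symm := ⟨fun _ _ h => h.symm⟩
  loopless := ⟨by decide⟩

instance : DecidableRel G.Adj := fun x y =>
  inferInstanceAs (Decidable ((x, y) ∈ edgeList ∨ (y, x) ∈ edgeList))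

/-- the frequencies -/
def f (e : Sym2 (Fin 6)) : ℕ :=
  if e = s(0, 1) then 10 else if e = s(0, 4) ∨ e = s(1, 3) then 2
  else if e = s(0, 5) ∨ e = s(1, 5) then 5 else 4

theorem edges : G.edgeFinset = {s(0, 1), s(0, 4), s(0, 5), s(1, 3), s(1, 5), s(2, 3), s(2, 4)} := by
  decide

theorem not_schedulable : ¬ Schedulable G f := by
  rintro ⟨S, hm, hs⟩
  have conf : ∀ t : ℕ, ∀ e e' : Sym2 (Fin 6), ∀ v : Fin 6, v ∈ e → v ∈ e' → e ≠ e' →
      ¬ (e ∈ S t ∧ e' ∈ S t) := fun t e e' v h1 h2 h3 h4 => h3 ((hm t).2 e h4.1 e' h4.2 v h1 h2)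
  have win : ∀ e : Sym2 (Fin 6), e ∈ G.edgeFinset → ∀ t : ℕ, ∃ s, t ≤ s ∧ s < t + f e ∧ e ∈ S s :=
    fun e he t => hs e (by simpa using he) t
  obtain ⟨t, ht, -, ha⟩ := win s(0, 1) (by decide) 3
  obtain ⟨u, rfl⟩ : ∃ u, t = u + 3 := ⟨t - 3, by omega⟩
  have hb : ∀ k : ℕ, s(0, 4) ∈ S k ∨ s(0, 4) ∈ S (k + 1) := by
    intro k
    obtain ⟨s, h1, h2, h3⟩ := win s(0, 4) (by decide) k
    have h4 : f s(0, 4) = 2 := by decide
    rw [h4] at h2
    have : s = k ∨ s = k + 1 := by omega
    rcases this with rfl | rfl <;> simp [h3]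
  have hd : ∀ k : ℕ, s(1, 3) ∈ S k ∨ s(1, 3) ∈ S (k + 1) := by
    intro k
    obtain ⟨s, h1, h2, h3⟩ := win s(1, 3) (by decide) k
    have h4 : f s(1, 3) = 2 := by decide
    rw [h4] at h2
    have : s = k ∨ s = k + 1 := by omega
    rcases this with rfl | rfl <;> simp [h3]
  have hg : ∀ k : ℕ, s(2, 3) ∈ S k ∨ s(2, 3) ∈ S (k + 1) ∨ s(2, 3) ∈ S (k + 2) ∨
      s(2, 3) ∈ S (k + 3) := by
    intro k
    obtain ⟨s, h1, h2, h3⟩ := win s(2, 3) (by decide) k
    have h4 : f s(2, 3) = 4 := by decide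
    rw [h4] at h2
    have : s = k ∨ s = k + 1 ∨ s = k + 2 ∨ s = k + 3 := by omega
    rcases this with rfl | rfl | rfl | rfl <;> simp [h3]
  have hh : ∀ k : ℕ, s(2, 4) ∈ S k ∨ s(2, 4) ∈ S (k + 1) ∨ s(2, 4) ∈ S (k + 2) ∨
      s(2, 4) ∈ S (k + 3) := by
    intro k
    obtain ⟨s, h1, h2, h3⟩ := win s(2, 4) (by decide) k
    have h4 : f s(2, 4) = 4 := by decide
    rw [h4] at h2
    have : s = k ∨ s = k + 1 ∨ s = k + 2 ∨ s = k + 3 := by omega
    rcases this with rfl | rfl | rfl | rfl <;> simp [h3]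
  have hc : ∀ k : ℕ, s(0, 5) ∈ S k ∨ s(0, 5) ∈ S (k + 1) ∨ s(0, 5) ∈ S (k + 2) ∨
      s(0, 5) ∈ S (k + 3) ∨ s(0, 5) ∈ S (k + 4) := by
    intro k
    obtain ⟨s, h1, h2, h3⟩ := win s(0, 5) (by decide) k
    have h4 : f s(0, 5) = 5 := by decide
    rw [h4] at h2
    have : s = k ∨ s = k + 1 ∨ s = k + 2 ∨ s = k + 3 ∨ s = k + 4 := by omega
    rcases this with rfl | rfl | rfl | rfl | rfl <;> simp [h3]
  have hf : ∀ k : ℕ, s(1, 5) ∈ S k ∨ s(1, 5) ∈ S (k + 1) ∨ s(1, 5) ∈ S (k + 2) ∨
      s(1, 5) ∈ S (k + 3) ∨ s(1, 5) ∈ S (k + 4) := by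
    intro k
    obtain ⟨s, h1, h2, h3⟩ := win s(1, 5) (by decide) k
    have h4 : f s(1, 5) = 5 := by decide
    rw [h4] at h2
    have : s = k ∨ s = k + 1 ∨ s = k + 2 ∨ s = k + 3 ∨ s = k + 4 := by omega
    rcases this with rfl | rfl | rfl | rfl | rfl <;> simp [h3]
  have cab := fun t => conf t s(0, 1) s(0, 4) 0 (by decide) (by decide) (by decide)
  have cac := fun t => conf t s(0, 1) s(0, 5) 0 (by decide) (by decide) (by decide)
  have cad := fun t => conf t s(0, 1) s(1, 3) 1 (by decide) (by decide) (by decide)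
  have caf := fun t => conf t s(0, 1) s(1, 5) 1 (by decide) (by decide) (by decide)
  have cbc := fun t => conf t s(0, 4) s(0, 5) 0 (by decide) (by decide) (by decide)
  have cbh := fun t => conf t s(0, 4) s(2, 4) 4 (by decide) (by decide) (by decide)
  have cdf := fun t => conf t s(1, 3) s(1, 5) 1 (by decide) (by decide) (by decide)
  have cdg := fun t => conf t s(1, 3) s(2, 3) 3 (by decide) (by decide) (by decide)
  have cgh := fun t => conf t s(2, 3) s(2, 4) 2 (by decide) (by decide) (by decide)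
  have ccf := fun t => conf t s(0, 5) s(1, 5) 5 (by decide) (by decide) (by decide)
  have b_0 := hb u
  have b_1 := hb (u + 1)
  have b_2 := hb (u + 2)
  have b_3 := hb (u + 3)
  have b_4 := hb (u + 4)
  have b_5 := hb (u + 5)
  have d_0 := hd u
  have d_1 := hd (u + 1)
  have d_2 := hd (u + 2)
  have d_3 := hd (u + 3)
  have d_4 := hd (u + 4)
  have d_5 := hd (u + 5)
  have g_0 := hg u
  have g_1 := hg (u + 1)
  have g_2 := hg (u + 2)
  have g_3 := hg (u + 3)
  have h_0 := hh u
  have h_1 := hh (u + 1)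
  have h_2 := hh (u + 2)
  have h_3 := hh (u + 3)
  have c_0 := hc u
  have c_1 := hc (u + 1)
  have c_2 := hc (u + 2)
  have f_0 := hf u
  have f_1 := hf (u + 1)
  have f_2 := hf (u + 2)
  have cab_0 := cab u
  have cab_1 := cab (u + 1)
  have cab_2 := cab (u + 2)
  have cab_3 := cab (u + 3)
  have cab_4 := cab (u + 4)
  have cab_5 := cab (u + 5)
  have cab_6 := cab (u + 6)
  have cac_0 := cac u
  have cac_1 := cac (u + 1)
  have cac_2 := cac (u + 2)
  have cac_3 := cac (u + 3)
  have cac_4 := cac (u + 4)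
  have cac_5 := cac (u + 5)
  have cac_6 := cac (u + 6)
  have cad_0 := cad u
  have cad_1 := cad (u + 1)
  have cad_2 := cad (u + 2)
  have cad_3 := cad (u + 3)
  have cad_4 := cad (u + 4)
  have cad_5 := cad (u + 5)
  have cad_6 := cad (u + 6)
  have caf_0 := caf u
  have caf_1 := caf (u + 1)
  have caf_2 := caf (u + 2)
  have caf_3 := caf (u + 3)
  have caf_4 := caf (u + 4)
  have caf_5 := caf (u + 5)
  have caf_6 := caf (u + 6)
  have cbc_0 := cbc u
  have cbc_1 := cbc (u + 1)
  have cbc_2 := cbc (u + 2)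
  have cbc_3 := cbc (u + 3)
  have cbc_4 := cbc (u + 4)
  have cbc_5 := cbc (u + 5)
  have cbc_6 := cbc (u + 6)
  have cbh_0 := cbh u
  have cbh_1 := cbh (u + 1)
  have cbh_2 := cbh (u + 2)
  have cbh_3 := cbh (u + 3)
  have cbh_4 := cbh (u + 4)
  have cbh_5 := cbh (u + 5)
  have cbh_6 := cbh (u + 6)
  have cdf_0 := cdf u
  have cdf_1 := cdf (u + 1)
  have cdf_2 := cdf (u + 2)
  have cdf_3 := cdf (u + 3)
  have cdf_4 := cdf (u + 4)
  have cdf_5 := cdf (u + 5)
  have cdf_6 := cdf (u + 6)
  have cdg_0 := cdg u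
  have cdg_1 := cdg (u + 1)
  have cdg_2 := cdg (u + 2)
  have cdg_3 := cdg (u + 3)
  have cdg_4 := cdg (u + 4)
  have cdg_5 := cdg (u + 5)
  have cdg_6 := cdg (u + 6)
  have cgh_0 := cgh u
  have cgh_1 := cgh (u + 1)
  have cgh_2 := cgh (u + 2)
  have cgh_3 := cgh (u + 3)
  have cgh_4 := cgh (u + 4)
  have cgh_5 := cgh (u + 5)
  have cgh_6 := cgh (u + 6)
  have ccf_0 := ccf u
  have ccf_1 := ccf (u + 1)
  have ccf_2 := ccf (u + 2)
  have ccf_3 := ccf (u + 3)
  have ccf_4 := ccf (u + 4)
  have ccf_5 := ccf (u + 5)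
  have ccf_6 := ccf (u + 6)
  clear hb hd hg hh hc hf cab cac cad caf cbc cbh cdf cdg cgh ccf conf win hm hs
  simp only [Nat.add_assoc, Nat.reduceAdd] at *
  grind

theorem maximal_of {M : Finset (Sym2 (Fin 6))} (h1 : ∀ e ∈ M, e ∈ G.edgeFinset)
    (h2 : ∀ e ∈ M, ∀ e' ∈ M, ∀ v : Fin 6, v ∈ e → v ∈ e' → e = e')
    (h3 : ∀ e ∈ G.edgeFinset, e ∉ M → ∃ e' ∈ M, ∃ v, v ∈ e ∧ v ∈ e') : IsMaximalMatching G M := by
  refine ⟨⟨fun e he => by simpa using h1 e he, h2⟩, fun M' hM' hsub => ?_⟩
  refine Finset.Subset.antisymm (fun e he => ?_) hsub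
  by_contra hne
  obtain ⟨e', he', v, hv, hv'⟩ := h3 e (by simpa using hM'.1 e he) hne
  have := hM'.2 e he e' (hsub he') v hv hv'
  exact hne (this ▸ he')

theorem max1 : IsMaximalMatching G {s(0, 1), s(2, 3)} :=
  maximal_of (by decide) (by decide) (by decide)

theorem max2 : IsMaximalMatching G {s(0, 1), s(2, 4)} :=
  maximal_of (by decide) (by decide) (by decide)

theorem max3 : IsMaximalMatching G {s(0, 5), s(1, 3), s(2, 4)} :=
  maximal_of (by decide) (by decide) (by decide)

theorem max4 : IsMaximalMatching G {s(1, 5), s(0, 4), s(2, 3)} :=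
  maximal_of (by decide) (by decide) (by decide)

theorem max5 : IsMaximalMatching G {s(0, 4), s(1, 3)} :=
  maximal_of (by decide) (by decide) (by decide)

theorem bdd (z : Sym2 (Fin 6) → ℝ) :
    BddAbove {x : ℝ | ∃ M, IsMaximalMatching G M ∧ x = ∑ e ∈ M, z e * f e} := by
  apply Set.Finite.bddAbove
  apply Set.Finite.subset (Set.finite_range (fun M : Finset (Sym2 (Fin 6)) => ∑ e ∈ M, z e * f e))
  rintro x ⟨M, -, rfl⟩
  exact ⟨M, rfl⟩

theorem f1 : f s(0, 1) = 10 := by decide
theorem f2 : f s(0, 4) = 2 := by decide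
theorem f3 : f s(0, 5) = 5 := by decide
theorem f4 : f s(1, 3) = 2 := by decide
theorem f5 : f s(1, 5) = 5 := by decide
theorem f6 : f s(2, 3) = 4 := by decide
theorem f7 : f s(2, 4) = 4 := by decide

theorem sup_ge {z : Sym2 (Fin 6) → ℝ} (hz : IsWeighting G z) :
    5 / 4 ≤ sSup {x : ℝ | ∃ M, IsMaximalMatching G M ∧ x = ∑ e ∈ M, z e * f e} := by
  set s := sSup {x : ℝ | ∃ M, IsMaximalMatching G M ∧ x = ∑ e ∈ M, z e * f e} with hs
  have key : ∀ M, IsMaximalMatching G M → ∑ e ∈ M, z e * f e ≤ s :=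
    fun M hM => le_csSup (bdd z) ⟨M, hM, rfl⟩
  have h1 := key _ max1
  have h2 := key _ max2
  have h3 := key _ max3
  have h4 := key _ max4
  have h5 := key _ max5
  rw [Finset.sum_insert (by decide), Finset.sum_singleton, f1, f6] at h1
  rw [Finset.sum_insert (by decide), Finset.sum_singleton, f1, f7] at h2
  rw [Finset.sum_insert (by decide), Finset.sum_insert (by decide), Finset.sum_singleton,
    f3, f4, f7] at h3
  rw [Finset.sum_insert (by decide), Finset.sum_insert (by decide), Finset.sum_singleton,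
    f5, f2, f6] at h4
  rw [Finset.sum_insert (by decide), Finset.sum_singleton, f2, f4] at h5
  have h := hz.2
  rw [edges, Finset.sum_insert (by decide), Finset.sum_insert (by decide),
    Finset.sum_insert (by decide), Finset.sum_insert (by decide), Finset.sum_insert (by decide),
    Finset.sum_insert (by decide), Finset.sum_singleton] at h
  push_cast at *
  linarith

/-- the optimal weighting: `1/8, 5/8, 1/4` on the edges at the vertex `0` -/
noncomputable def z0 (e : Sym2 (Fin 6)) : ℝ :=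
  if e = s(0, 1) then 1 / 8 else if e = s(0, 4) then 5 / 8 else if e = s(0, 5) then 1 / 4 else 0

theorem z0_weighting : IsWeighting G z0 := by
  constructor
  · intro e _
    unfold z0
    split_ifs <;> norm_num
  · rw [edges, Finset.sum_insert (by decide), Finset.sum_insert (by decide),
      Finset.sum_insert (by decide), Finset.sum_insert (by decide), Finset.sum_insert (by decide),
      Finset.sum_insert (by decide), Finset.sum_singleton]
    unfold z0
    rw [if_pos rfl, if_neg (by decide), if_pos rfl, if_neg (by decide), if_neg (by decide),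
      if_pos rfl, if_neg (by decide), if_neg (by decide), if_neg (by decide), if_neg (by decide),
      if_neg (by decide), if_neg (by decide), if_neg (by decide), if_neg (by decide),
      if_neg (by decide), if_neg (by decide), if_neg (by decide), if_neg (by decide)]
    norm_num

theorem z0_mul (e : Sym2 (Fin 6)) :
    z0 e * f e = if e ∈ ({s(0, 1), s(0, 4), s(0, 5)} : Finset (Sym2 (Fin 6))) then 5 / 4 else 0 := by
  by_cases h1 : e = s(0, 1)
  · subst h1
    rw [f1, z0, if_pos rfl, if_pos (by decide)]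
    norm_num
  by_cases h2 : e = s(0, 4)
  · subst h2
    rw [f2, z0, if_neg (by decide), if_pos rfl, if_pos (by decide)]
    norm_num
  by_cases h3 : e = s(0, 5)
  · subst h3
    rw [f3, z0, if_neg (by decide), if_neg (by decide), if_pos rfl, if_pos (by decide)]
    norm_num
  rw [z0, if_neg h1, if_neg h2, if_neg h3, if_neg (by simp [h1, h2, h3])]
  simp

theorem value_z0 : value G f z0 = 4 / 5 := by
  have h : IsGreatest {x : ℝ | ∃ M, IsMaximalMatching G M ∧ x = ∑ e ∈ M, z0 e * f e} (5 / 4) := by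
    constructor
    · refine ⟨_, max1, ?_⟩
      rw [Finset.sum_insert (by decide), Finset.sum_singleton, z0_mul, z0_mul, if_pos (by decide),
        if_neg (by decide)]
      norm_num
    · rintro x ⟨M, hM, rfl⟩
      simp only [z0_mul]
      rw [← Finset.sum_filter, Finset.sum_const]
      have hc : (M.filter (· ∈ ({s(0, 1), s(0, 4), s(0, 5)} : Finset (Sym2 (Fin 6))))).card ≤ 1 := by
        rw [Finset.card_le_one]
        intro e he e' he'
        rw [Finset.mem_filter] at he he'
        have key : ∀ e ∈ ({s(0, 1), s(0, 4), s(0, 5)} : Finset (Sym2 (Fin 6))), (0 : Fin 6) ∈ e := by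
          decide
        exact hM.1.2 e he.1 e' he'.1 0 (key e he.2) (key e' he'.2)
      have : ((M.filter (· ∈ ({s(0, 1), s(0, 4), s(0, 5)} : Finset (Sym2 (Fin 6))))).card : ℝ) ≤ 1 := by
        exact_mod_cast hc
      rw [nsmul_eq_mul]
      linarith
  rw [value, h.csSup_eq]
  norm_num

theorem greatest : IsGreatest {d : ℝ | ∃ z, IsWeighting G z ∧ d = value G f z} (4 / 5) := by
  constructor
  · exact ⟨z0, z0_weighting, value_z0.symm⟩
  · rintro d ⟨z, hz, rfl⟩
    have h := sup_ge hz
    rw [value, div_le_div_iff₀ (by linarith) (by norm_num)]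
    linarith

/-- There is an instance of polyamorous scheduling with poly density exactly `4/5 < 5/6` (the maximum
over all weightings is attained and equals `4/5`) which is not schedulable. -/
theorem result : ∃ (G : SimpleGraph (Fin 6)) (_ : DecidableRel G.Adj) (f : Sym2 (Fin 6) → ℕ),
    G.edgeSet.Nonempty ∧ (∀ e ∈ G.edgeSet, 1 ≤ f e) ∧
    IsGreatest {d : ℝ | ∃ z, IsWeighting G z ∧ d = value G f z} (polyDensity G f) ∧
    polyDensity G f = 4 / 5 ∧ ¬ Schedulable G f := by
  have h : polyDensity G f = 4 / 5 := greatest.csSup_eq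
  refine ⟨G, inferInstance, f, ⟨s(0, 1), ?_⟩, fun e _ => ?_, ?_, h, not_schedulable⟩
  · simp [G, edgeList]
  · unfold f
    split_ifs <;> norm_num
  · rw [h]
    exact greatest

end Pool.Agent.Results.MP_90a930_lc.FourFifths
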